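import Mathlib

/-!
A semigroup with eight elements in which p-conjugacy is not transitive although it is
transitive in every variant.
-/

namespace Pool.Agent.Results.MP_9df05e_al.NotInherited

/-- p-conjugacy for a semigroup operation `op` on `T`: `a = u v` and `b = v u` for some
`u, v` in `T¹`.  The case in which `u` or `v` is an adjoined identity is the case `a = b`
(if `T` already has an identity, `a = b` is covered by both clauses). -/
def PConj {T : Type*} (op : T → T → T) (a b : T) : Prop :=
  a = b ∨ ∃ u v : T, a = op u v ∧ b = op v u

/-- The product of the variant of a semigroup `S` at `a`. -/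
def variantMul {S : Type*} [Mul S] (a : S) (x y : S) : S := x * a * y

/-- The eight-element carrier. -/
inductive E
  | zero | u | v | x | y | p | q | r
  deriving DecidableEq, Fintype

/-- Multiplication: `u v = p`, `v u = q`, `x y = q`, `y x = r`, all other products zero. -/
def E.mul : E → E → E
  | .u, .v => .p
  | .v, .u => .q
  | .x, .y => .q
  | .y, .x => .r
  | _, _ => .zero

instance : Semigroup E where
  mul := E.mul
  mul_assoc := by
    intro a b c
    show E.mul (E.mul a b) c = E.mul a (E.mul b c)
    cases a <;> cases b <;> cases c <;> rfl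

lemma triple (a b c : E) : a * b * c = E.zero := by
  show E.mul (E.mul a b) c = E.zero
  cases a <;> cases b <;> cases c <;> rfl

/-- Q1 is false: there is a (finite) semigroup in which p-conjugacy is not transitive although
it is transitive in every variant. -/
theorem result : ∃ (S : Type) (_ : Semigroup S) (_ : Finite S),
    (∀ a : S, IsTrans S (PConj (variantMul a))) ∧
      ¬ IsTrans S (PConj (fun x y : S => x * y)) := by
  refine ⟨E, inferInstance, inferInstance, ?_, ?_⟩
  · intro a
    refine ⟨fun s t w hxy hyz => ?_⟩
    simp only [PConj, variantMul, triple] at hxy hyz ⊢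
    rcases hxy with rfl | ⟨_, _, h1, h2⟩
    · exact hyz
    · rcases hyz with rfl | ⟨_, _, h3, h4⟩
      · exact Or.inr ⟨s, s, h1, h2⟩
      · exact Or.inr ⟨s, s, h1, h4⟩
  · intro h
    have h1 : PConj (fun s t : E => s * t) E.p E.q := Or.inr ⟨E.u, E.v, rfl, rfl⟩
    have h2 : PConj (fun s t : E => s * t) E.q E.r := Or.inr ⟨E.x, E.y, rfl, rfl⟩
    rcases h.trans _ _ _ h1 h2 with h3 | ⟨a, b, h3, h4⟩
    · exact absurd h3 (by decide)
    · change E.p = E.mul a b at h3
      change E.r = E.mul b a at h4
      cases a <;> cases b <;> simp [E.mul] at h3 h4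

end Pool.Agent.Results.MP_9df05e_al.NotInherited
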