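import Mathlib

/-!
# Transitivity of p-conjugacy is not inherited from variants

A semigroup of order eight with zero in which all products of three elements vanish. Primary
conjugacy is transitive in each of its variants, which are null semigroups, but it is not transitive
in the semigroup itself.
-/

set_option autoImplicit false

namespace Pool.Agent.Results.MP_9df05e_al.VariantsTransitive

/-- Primary conjugacy with respect to a binary operation `op`: `x` and `y` are `p`-conjugate when
`x = op u v` and `y = op v u` for some `u, v`, where `u` or `v` may also be the adjoined identity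
(this last possibility means exactly `x = y`). -/
def PConj {S : Type} (op : S → S → S) (x y : S) : Prop :=
  x = y ∨ ∃ u v : S, x = op u v ∧ y = op v u

/-- The multiplication table. The elements are `u = 0`, `v = 1`, `x = 2`, `y = 3`, `p = 4`, `q = 5`,
`r = 6` and the zero element `7`; the nonzero products are `u v = p`, `v u = x y = q`, `y x = r`. -/
def mulTable (a b : Fin 8) : Fin 8 :=
  if a = 0 ∧ b = 1 then 4 else
  if a = 1 ∧ b = 0 then 5 else
  if a = 2 ∧ b = 3 then 5 else
  if a = 3 ∧ b = 2 then 6 else 7

theorem mulTable_three (a b c : Fin 8) : mulTable (mulTable a b) c = 7 := by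
  revert a b c; decide

theorem mulTable_three' (a b c : Fin 8) : mulTable a (mulTable b c) = 7 := by
  revert a b c; decide

/-- The semigroup of order eight. -/
@[instance_reducible] def semigroupEight : Semigroup (Fin 8) where
  mul := mulTable
  mul_assoc a b c := by
    change mulTable (mulTable a b) c = mulTable a (mulTable b c)
    rw [mulTable_three, mulTable_three']

/-- There is a finite semigroup such that primary conjugacy is transitive in each of its variants
but not in the semigroup itself. -/
theorem result : ∃ (S : Type) (_ : Semigroup S), Finite S ∧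
    (∀ a x y z : S, PConj (fun s t : S => s * a * t) x y →
      PConj (fun s t : S => s * a * t) y z → PConj (fun s t : S => s * a * t) x z) ∧
    ∃ x y z : S, PConj (fun s t : S => s * t) x y ∧ PConj (fun s t : S => s * t) y z ∧
      ¬ PConj (fun s t : S => s * t) x z := by
  refine ⟨Fin 8, semigroupEight, inferInstance, ?_, 4, 5, 6, ?_, ?_, ?_⟩
  · intro a x y z hxy hyz
    have key : ∀ u v : Fin 8, mulTable (mulTable u a) v = 7 := fun u v => mulTable_three u a v
    have h1 : x = y ∨ (x = 7 ∧ y = 7) := by
      rcases hxy with h | ⟨u, v, h1, h2⟩
      · exact Or.inl h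
      · exact Or.inr ⟨h1.trans (key u v), h2.trans (key v u)⟩
    have h2 : y = z ∨ (y = 7 ∧ z = 7) := by
      rcases hyz with h | ⟨u, v, h1, h2⟩
      · exact Or.inl h
      · exact Or.inr ⟨h1.trans (key u v), h2.trans (key v u)⟩
    have h3 : x = z := by
      rcases h1 with rfl | ⟨rfl, rfl⟩
      · rcases h2 with rfl | ⟨rfl, rfl⟩ <;> rfl
      · rcases h2 with rfl | ⟨_, rfl⟩ <;> rfl
    exact Or.inl h3
  · exact Or.inr ⟨0, 1, by decide, by decide⟩
  · exact Or.inr ⟨2, 3, by decide, by decide⟩
  · intro h3
    rcases h3 with h | ⟨u, v, hu, hv⟩
    · exact absurd h (by decide)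
    · have : ∀ u v : Fin 8, (4 : Fin 8) = mulTable u v → (6 : Fin 8) = mulTable v u → False := by
        decide
      exact this u v hu hv

end Pool.Agent.Results.MP_9df05e_al.VariantsTransitive
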